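import Mathlib
import Pool.Agent.H993.TR.Lat

/-!
# Task 4 of the project LY (helper993): the lattice sum of `lam k ^ (-5/4)` for `d ≥ 3`
-/

set_option autoImplicit false
set_option linter.unusedSectionVars false

namespace Pool.Agent.H383.LY

open Pool.Agent.N657.QR Pool.Agent.N615.QRLAT Pool.Agent.H993.TR

/-- The sixth root. -/
noncomputable def sr (x : ℝ) : ℝ := x ^ ((1:ℝ) / 6)

theorem sr_pow {x : ℝ} (hx : 0 ≤ x) : sr x ^ 6 = x := by
  unfold sr
  rw [← Real.rpow_natCast, ← Real.rpow_mul hx]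
  norm_num

theorem sr_nonneg {x : ℝ} (hx : 0 ≤ x) : 0 ≤ sr x := Real.rpow_nonneg hx _

theorem sr_pos {x : ℝ} (hx : 0 < x) : 0 < sr x := Real.rpow_pos_of_pos hx _

theorem sr_mono {x y : ℝ} (hx : 0 ≤ x) (h : x ≤ y) : sr x ≤ sr y :=
  Real.rpow_le_rpow hx h (by norm_num)

theorem cb_rp {x : ℝ} (hx : 0 ≤ x) : (cb x ^ 2) ^ ((5:ℝ) / 4) = sr x ^ 5 := by
  unfold cb sr
  rw [← Real.rpow_natCast, ← Real.rpow_natCast, ← Real.rpow_mul hx, ← Real.rpow_mul hx,
    ← Real.rpow_mul hx]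
  norm_num

theorem sum_sr (L : ℕ) : ∑ m ∈ Finset.range L, 1 / sr ((m : ℝ) + 1) ^ 5 ≤ 6 * sr L := by
  induction L with
  | zero => simp [sr]
  | succ L ih =>
    rw [Finset.sum_range_succ]
    push_cast
    have hL0 : (0:ℝ) ≤ L := Nat.cast_nonneg _
    have h1 : 0 < sr ((L : ℝ) + 1) := sr_pos (by positivity)
    have h0 : 0 ≤ sr (L:ℝ) := sr_nonneg hL0
    have h2 : sr (L : ℝ) ≤ sr ((L : ℝ) + 1) := sr_mono hL0 (by linarith)
    have h3 : sr ((L : ℝ) + 1) ^ 6 = (L : ℝ) + 1 := sr_pow (by positivity)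
    have h4 : sr (L : ℝ) ^ 6 = (L : ℝ) := sr_pow hL0
    set u := sr ((L : ℝ) + 1)
    set v := sr (L : ℝ)
    have h5 : 1 / u ^ 5 ≤ 6 * u - 6 * v := by
      rw [div_le_iff₀ (by positivity)]
      have h6 : (u - v) * (u ^ 5 + u ^ 4 * v + u ^ 3 * v ^ 2 + u ^ 2 * v ^ 3 + u * v ^ 4 + v ^ 5)
          = 1 := by
        have : (u - v) * (u ^ 5 + u ^ 4 * v + u ^ 3 * v ^ 2 + u ^ 2 * v ^ 3 + u * v ^ 4 + v ^ 5)
          = u ^ 6 - v ^ 6 := by ring
        rw [this, h3, h4]; ring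
      have g1 : v ^ 2 ≤ u ^ 2 := pow_le_pow_left₀ h0 h2 2
      have g2 : v ^ 3 ≤ u ^ 3 := pow_le_pow_left₀ h0 h2 3
      have g3 : v ^ 4 ≤ u ^ 4 := pow_le_pow_left₀ h0 h2 4
      have g4 : v ^ 5 ≤ u ^ 5 := pow_le_pow_left₀ h0 h2 5
      have k1 : u ^ 4 * v ≤ u ^ 4 * u := mul_le_mul_of_nonneg_left h2 (by positivity)
      have k2 : u ^ 3 * v ^ 2 ≤ u ^ 3 * u ^ 2 := mul_le_mul_of_nonneg_left g1 (by positivity)
      have k3 : u ^ 2 * v ^ 3 ≤ u ^ 2 * u ^ 3 := mul_le_mul_of_nonneg_left g2 (by positivity)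
      have k4 : u * v ^ 4 ≤ u * u ^ 4 := mul_le_mul_of_nonneg_left g3 (by positivity)
      have h7 : u ^ 5 + u ^ 4 * v + u ^ 3 * v ^ 2 + u ^ 2 * v ^ 3 + u * v ^ 4 + v ^ 5 ≤
          6 * u ^ 5 := by nlinarith
      have h8 := mul_le_mul_of_nonneg_left h7 (sub_nonneg.2 h2)
      rw [h6] at h8
      linarith
    linarith

section

variable {L : ℕ} [NeZero L]

theorem sum_mu6 : ∑ t : ZMod L, 1 / sr (1 + mu t) ^ 5 ≤ 12 * sr L := by
  have h1 : ∀ t : ZMod L, 1 / sr (1 + mu t) ^ 5 ≤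
      1 / sr ((t.val : ℝ) + 1) ^ 5 + 1 / sr (((L - 1 - t.val : ℕ) : ℝ) + 1) ^ 5 := by
    intro t
    have hv := val_le t
    have hlt := ZMod.val_lt t
    have e : ((L - 1 - t.val : ℕ) : ℝ) = (L : ℝ) - 1 - t.val := by
      rw [Nat.cast_sub (by omega), Nat.cast_sub (by omega)]
      push_cast
      ring
    have hv0 : (0 : ℝ) ≤ t.val := Nat.cast_nonneg _
    unfold mu
    rcases le_total (t.val : ℝ) ((L : ℝ) - t.val) with h | h
    · rw [min_eq_left h, add_comm (1 : ℝ)]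
      have : 0 ≤ 1 / sr (((L - 1 - t.val : ℕ) : ℝ) + 1) ^ 5 := by
        have := sr_nonneg (x := ((L - 1 - t.val : ℕ) : ℝ) + 1) (by positivity)
        positivity
      linarith
    · rw [min_eq_right h, e]
      have h2 : 0 ≤ 1 / sr ((t.val : ℝ) + 1) ^ 5 := by
        have := sr_nonneg (x := (t.val : ℝ) + 1) (by positivity)
        positivity
      have hp : 0 < sr ((L : ℝ) - 1 - t.val + 1) := sr_pos (by linarith)
      have h3 : 1 / sr (1 + ((L : ℝ) - t.val)) ^ 5 ≤ 1 / sr ((L : ℝ) - 1 - t.val + 1) ^ 5 := by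
        apply one_div_le_one_div_of_le (by positivity)
        exact pow_le_pow_left₀ hp.le (sr_mono (by linarith) (by linarith)) 5
      linarith
  calc ∑ t : ZMod L, 1 / sr (1 + mu t) ^ 5 ≤
        ∑ t : ZMod L, (1 / sr ((t.val : ℝ) + 1) ^ 5 +
          1 / sr (((L - 1 - t.val : ℕ) : ℝ) + 1) ^ 5) := Finset.sum_le_sum fun t _ => h1 t
    _ = ∑ m ∈ Finset.range L, 1 / sr ((m : ℝ) + 1) ^ 5 +
          ∑ m ∈ Finset.range L, 1 / sr (((L - 1 - m : ℕ) : ℝ) + 1) ^ 5 := by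
        rw [Finset.sum_add_distrib, sum_val (fun m => 1 / sr ((m : ℝ) + 1) ^ 5),
          sum_val (fun m => 1 / sr (((L - 1 - m : ℕ) : ℝ) + 1) ^ 5)]
    _ = ∑ m ∈ Finset.range L, 1 / sr ((m : ℝ) + 1) ^ 5 +
          ∑ m ∈ Finset.range L, 1 / sr ((m : ℝ) + 1) ^ 5 := by
        rw [Finset.sum_range_reflect (fun m => 1 / sr ((m : ℝ) + 1) ^ 5) L]
    _ ≤ 12 * sr L := by
        have := sum_sr L
        linarith

variable {d : ℕ}

theorem lam_nn (k : Fin d → ZMod L) : 0 ≤ lam k := by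
  unfold lam
  refine Finset.sum_nonneg fun i _ => ?_
  have := Real.cos_le_one (2 * Real.pi * ((k i).val : ℝ) / L)
  linarith

/-- The bound for one momentum. -/
theorem one_k6 {i₀ i₁ i₂ : Fin d} (h01 : i₀ ≠ i₁) (h02 : i₀ ≠ i₂) (h12 : i₁ ≠ i₂)
    {k : Fin d → ZMod L} (hk : k ≠ 0) :
    (lam k) ^ (-(5 / 4) : ℝ) ≤ (sr L ^ 5 / sr (1 + mu (k i₀)) ^ 5) *
      (sr L ^ 5 / sr (1 + mu (k i₁)) ^ 5) * (sr L ^ 5 / sr (1 + mu (k i₂)) ^ 5) := by
  have h := one_k3 h01 h02 h12 hk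
  have hL : (0 : ℝ) ≤ L := Nat.cast_nonneg _
  have g : ∀ t : ZMod L, 0 ≤ cb L ^ 2 / cb (1 + mu t) ^ 2 := fun t => by positivity
  have g2 : ∀ t : ZMod L, (cb L ^ 2 / cb (1 + mu t) ^ 2) ^ ((5:ℝ) / 4) =
      sr L ^ 5 / sr (1 + mu t) ^ 5 := fun t => by
    have := mu_nn t
    rw [Real.div_rpow (by positivity) (by positivity), cb_rp hL, cb_rp (by linarith)]
  rw [Real.rpow_neg (lam_nn k), ← Real.inv_rpow (lam_nn k), inv_eq_one_div]
  have h0 : 0 ≤ 1 / lam k := by have := lam_nn k; positivity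
  have h1 := g (k i₀)
  have h2 := g (k i₁)
  have h3 := g (k i₂)
  rw [← g2, ← g2, ← g2, ← Real.mul_rpow h1 h2, ← Real.mul_rpow (mul_nonneg h1 h2) h3]
  refine Real.rpow_le_rpow h0 (h.trans ?_) (by norm_num)
  have := mul_nonneg (mul_nonneg h1 h2) h3
  linarith

end

/-- In at least three dimensions the lattice sum of `lam k ^ (-5/4)` is of the order of the
volume. -/
theorem lat6 (d : ℕ) (hd : 3 ≤ d) (L : ℕ) [NeZero L] :
    ∑ k ∈ (Finset.univ : Finset (Fin d → ZMod L)).erase 0, (lam k) ^ (-(5 / 4) : ℝ) ≤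
      1728 * (L : ℝ) ^ d := by
  have hL : (0 : ℝ) < L := by exact_mod_cast Nat.pos_of_ne_zero (NeZero.ne L)
  let i₀ : Fin d := ⟨0, by omega⟩
  let i₁ : Fin d := ⟨1, by omega⟩
  let i₂ : Fin d := ⟨2, by omega⟩
  have h01 : i₀ ≠ i₁ := by
    intro h
    have := congrArg Fin.val h
    simp [i₀, i₁] at this
  have h02 : i₀ ≠ i₂ := by
    intro h
    have := congrArg Fin.val h
    simp [i₀, i₂] at this
  have h12 : i₁ ≠ i₂ := by
    intro h
    have := congrArg Fin.val h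
    simp [i₁, i₂] at this
  set h : ZMod L → ℝ := fun t => sr L ^ 5 / sr (1 + mu t) ^ 5 with hh
  have hpos : ∀ t, 0 ≤ h t := fun t => by
    simp only [hh]
    have := sr_nonneg hL.le
    have := sr_nonneg (x := 1 + mu t) (by have := mu_nn t; linarith)
    positivity
  set F : Fin d → ZMod L → ℝ := fun i t => (if i = i₀ then h t else 1) *
    (if i = i₁ then h t else 1) * (if i = i₂ then h t else 1) with hF
  have hFnn : ∀ i t, 0 ≤ F i t := by
    intro i t
    simp only [hF]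
    refine mul_nonneg (mul_nonneg ?_ ?_) ?_ <;> split_ifs <;>
      first | exact hpos t | exact zero_le_one
  have hFprod : ∀ k : Fin d → ZMod L, ∏ i, F i (k i) = h (k i₀) * h (k i₁) * h (k i₂) := by
    intro k
    simp only [hF]
    rw [Finset.prod_mul_distrib, Finset.prod_mul_distrib,
      Finset.prod_ite_eq' Finset.univ i₀ (fun i => h (k i)),
      Finset.prod_ite_eq' Finset.univ i₁ (fun i => h (k i)),
      Finset.prod_ite_eq' Finset.univ i₂ (fun i => h (k i)), if_pos (Finset.mem_univ _),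
      if_pos (Finset.mem_univ _), if_pos (Finset.mem_univ _)]
  have hsum_h : ∑ t, h t ≤ 12 * L := by
    have h1 : ∑ t, h t = sr L ^ 5 * ∑ t : ZMod L, 1 / sr (1 + mu t) ^ 5 := by
      rw [Finset.mul_sum]
      refine Finset.sum_congr rfl fun t _ => ?_
      simp only [hh]
      ring
    rw [h1]
    have := sr_nonneg hL.le
    calc sr L ^ 5 * ∑ t : ZMod L, 1 / sr (1 + mu t) ^ 5 ≤ sr L ^ 5 * (12 * sr L) :=
          mul_le_mul_of_nonneg_left sum_mu6 (by positivity)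
      _ = 12 * (sr L ^ 6) := by ring
      _ = 12 * L := by rw [sr_pow hL.le]
  have hone : ∑ _t : ZMod L, (1 : ℝ) = L := by
    rw [Finset.sum_const, Finset.card_univ, ZMod.card, nsmul_eq_mul, mul_one]
  set c : Fin d → ℝ := fun i => (if i = i₀ then 12 else 1) * (if i = i₁ then 12 else 1) *
    (if i = i₂ then 12 else 1) with hc
  have hFsum : ∀ i, ∑ t, F i t ≤ c i * L := by
    intro i
    simp only [hF, hc]
    by_cases h0 : i = i₀
    · have h1 : ¬ i = i₁ := fun h' => h01 (h0.symm.trans h')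
      have h2 : ¬ i = i₂ := fun h' => h02 (h0.symm.trans h')
      simp only [if_pos h0, if_neg h1, if_neg h2, mul_one]
      exact hsum_h
    · by_cases h1 : i = i₁
      · have h2 : ¬ i = i₂ := fun h' => h12 (h1.symm.trans h')
        simp only [if_neg h0, if_pos h1, if_neg h2, one_mul, mul_one]
        exact hsum_h
      · by_cases h2 : i = i₂
        · simp only [if_neg h0, if_neg h1, if_pos h2, one_mul]
          exact hsum_h
        · simp only [if_neg h0, if_neg h1, if_neg h2, mul_one, one_mul]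
          exact hone.le
  have hcprod : ∏ i, c i = 1728 := by
    simp only [hc]
    rw [Finset.prod_mul_distrib, Finset.prod_mul_distrib,
      Finset.prod_ite_eq' Finset.univ i₀ (fun _ => (12 : ℝ)),
      Finset.prod_ite_eq' Finset.univ i₁ (fun _ => (12 : ℝ)),
      Finset.prod_ite_eq' Finset.univ i₂ (fun _ => (12 : ℝ)), if_pos (Finset.mem_univ _),
      if_pos (Finset.mem_univ _), if_pos (Finset.mem_univ _)]
    norm_num
  have hprod : ∑ k : Fin d → ZMod L, ∏ i, F i (k i) ≤ 1728 * (L : ℝ) ^ d := by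
    have h1 := Finset.prod_univ_sum (fun _ : Fin d => (Finset.univ : Finset (ZMod L))) F
    rw [Fintype.piFinset_univ] at h1
    rw [← h1]
    calc ∏ i, ∑ t, F i t ≤ ∏ i, c i * L :=
          Finset.prod_le_prod (fun i _ => Finset.sum_nonneg fun t _ => hFnn i t)
            (fun i _ => hFsum i)
      _ = 1728 * (L : ℝ) ^ d := by
          rw [Finset.prod_mul_distrib, hcprod, Finset.prod_const, Finset.card_univ,
            Fintype.card_fin]
  calc ∑ k ∈ (Finset.univ : Finset (Fin d → ZMod L)).erase 0, (lam k) ^ (-(5 / 4) : ℝ) ≤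
        ∑ k ∈ (Finset.univ : Finset (Fin d → ZMod L)).erase 0, ∏ i, F i (k i) := by
        apply Finset.sum_le_sum
        intro k hk
        rw [hFprod]
        exact one_k6 h01 h02 h12 (Finset.ne_of_mem_erase hk)
    _ ≤ ∑ k : Fin d → ZMod L, ∏ i, F i (k i) := by
        apply Finset.sum_le_sum_of_subset_of_nonneg (Finset.erase_subset _ _)
        intro k _ _
        exact Finset.prod_nonneg fun i _ => hFnn i _
    _ ≤ 1728 * (L : ℝ) ^ d := hprod

/-- TASK 4. A lattice sum in dimension at least three. -/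
theorem task_lat (d : ℕ) (hd : 3 ≤ d) : ∃ C : ℝ, 0 < C ∧ ∀ (L : ℕ) [NeZero L],
    ∑ k ∈ (Finset.univ : Finset (Fin d → ZMod L)).erase 0,
      (∑ i, (2 - 2 * Real.cos (2 * Real.pi * ((k i).val : ℝ) / L))) ^ (-(5 / 4) : ℝ) ≤
      C * (L : ℝ) ^ d :=
  ⟨1728, by norm_num, fun L _ => lat6 d hd L⟩

end Pool.Agent.H383.LY
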